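import Pool.Agent.P.MP_28ad2c_co.Char

namespace Pool.Agent.Results.MP_28ad2c_co.DensityZero

open Filter Topology Pool.Agent.P.MP_28ad2c_co

/-- `A` is a Sidon set in the cyclic group of order `n`: two-term sums, repetitions allowed, are
distinct up to the order of the summands. -/
def IsSidon {n : ℕ} (A : Finset (ZMod n)) : Prop :=
  ∀ a ∈ A, ∀ b ∈ A, ∀ c ∈ A, ∀ d ∈ A, a + b = c + d → ({a, b} : Multiset (ZMod n)) = {c, d}

theorem result (L : ℕ) :
    Tendsto (fun X : ℕ => (({m : ℕ | m < X ∧ ∃ n : ℕ, m ^ 2 - m + 1 ≤ n ∧ n ≤ m ^ 2 - m + 1 + L ∧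
      ∃ A : Finset (ZMod n), A.card = m ∧ IsSidon A}.ncard : ℕ) : ℝ) / (X : ℝ)) atTop (𝓝 0) := by
  have h1 := Small.exists_finset (Finset.range (L + 1)) _ (fun l _ => small_fixed l)
  have h2 : Small fun m => ∃ n : ℕ, m ^ 2 - m + 1 ≤ n ∧ n ≤ m ^ 2 - m + 1 + L ∧
      ∃ A : Finset (ZMod n), A.card = m ∧ IsSidon A := by
    refine h1.mono ?_
    rintro m ⟨n, hn1, hn2, hA⟩
    obtain ⟨l, rfl⟩ := Nat.exists_eq_add_of_le hn1
    exact ⟨l, Finset.mem_range.mpr (by omega), hA⟩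
  refine h2.tendsto.congr fun X => ?_
  congr 2
  unfold cnt
  rw [← Set.ncard_coe_finset]
  congr 1
  ext m
  simp

end Pool.Agent.Results.MP_28ad2c_co.DensityZero
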