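import Pool.Agent.P.MP_28ad2c_co.Per2

namespace Pool.Agent.Results.MP_28ad2c_co.PeriodicLeave

open Pool.Agent.P.MP_28ad2c_co Gap

/-- `A` is a Sidon set in the cyclic group of order `n`: two-term sums, repetitions allowed, are
distinct up to the order of the summands. -/
def IsSidon {n : ℕ} (A : Finset (ZMod n)) : Prop :=
  ∀ a ∈ A, ∀ b ∈ A, ∀ c ∈ A, ∀ d ∈ A, a + b = c + d → ({a, b} : Multiset (ZMod n)) = {c, d}

/-- `x` is a difference of two distinct elements of `A`. -/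
def IsDiff {n : ℕ} (A : Finset (ZMod n)) (x : ZMod n) : Prop :=
  ∃ a ∈ A, ∃ b ∈ A, a ≠ b ∧ a - b = x

theorem result (m n l a : ℕ) (hn : n = m ^ 2 - m + 1 + l) (ho : Odd n) (ha : 2 ^ a ∣ m)
    (A : Finset (ZMod n)) (hA : IsSidon A) (hm : A.card = m)
    (h : ZMod n) (hh : h ≠ 0) (hper : ∀ x, IsDiff A (x + h) ↔ IsDiff A x) :
    2 ^ a * m ≤ 2 ^ a * l + 2 * m := by
  have : NeZero n := ⟨ho.pos.ne'⟩
  have hS : Sid A := by
    intro a ha b hb c hc d hd e
    have := hA a ha b hb c hc d hd e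
    rw [Multiset.insert_eq_cons, Multiset.insert_eq_cons, Multiset.cons_eq_cons] at this
    rcases this with ⟨h1, h2⟩ | ⟨-, t, h1, h2⟩
    · exact Or.inl ⟨h1, Multiset.singleton_inj.mp h2⟩
    · have h3 := (Multiset.singleton_eq_cons_iff _).mp h1
      have h4 := (Multiset.singleton_eq_cons_iff _).mp h2
      exact Or.inr ⟨h4.1.symm, h3.1⟩
  have h2 : m ≤ m * m := Nat.le_mul_self m
  rw [sq] at hn
  have hL : (LL A).card = l := by
    have h1 := card_LL hS
    rw [ZMod.card, hm] at h1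
    omega
  have hf : ∀ g : ZMod n, 2 ^ n.totient • g = g := fun g => by
    rw [nsmul_eq_mul, (ZMod.natCast_eq_natCast_iff _ _ _).2
      (Nat.ModEq.pow_totient (Nat.coprime_two_left.2 ho)), Nat.cast_one, one_mul]
  have := Per.bound hS hh (fun x => by rw [mem_DD, mem_DD]; exact hper x)
    (Nat.totient_pos.2 ho.pos) hf (hm ▸ ha)
  rwa [hL, hm] at this

end Pool.Agent.Results.MP_28ad2c_co.PeriodicLeave
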