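import Pool.Agent.P.MP_28ad2c_co.Gap4

namespace Pool.Agent.Results.MP_28ad2c_co.SingerGap

open Pool.Agent.P.MP_28ad2c_co.Gap

/-- `A` is a Sidon set in the cyclic group of order `n`: two-term sums, repetitions allowed, are
distinct up to the order of the summands. -/
def IsSidon {n : ℕ} (A : Finset (ZMod n)) : Prop :=
  ∀ a ∈ A, ∀ b ∈ A, ∀ c ∈ A, ∀ d ∈ A, a + b = c + d → ({a, b} : Multiset (ZMod n)) = {c, d}

theorem result (m l n : ℕ) (hl : 1 ≤ l) (hn : n = m ^ 2 - m + 1 + l) (hpar : Odd m ∨ Even n)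
    (A : Finset (ZMod n)) (hA : IsSidon A) (hm : A.card = m) : m ≤ (l + 1) * (l + 2) := by
  have : NeZero n := ⟨by omega⟩
  have h : Sid A := by
    intro a ha b hb c hc d hd e
    have := hA a ha b hb c hc d hd e
    rw [Multiset.insert_eq_cons, Multiset.insert_eq_cons, Multiset.cons_eq_cons] at this
    rcases this with ⟨h1, h2⟩ | ⟨-, t, h1, h2⟩
    · exact Or.inl ⟨h1, Multiset.singleton_inj.mp h2⟩
    · have h3 := (Multiset.singleton_eq_cons_iff _).mp h1
      have h4 := (Multiset.singleton_eq_cons_iff _).mp h2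
      exact Or.inr ⟨h4.1.symm, h3.1⟩
  have hL : (LL A).card = l := by
    have h1 := card_LL h
    rw [ZMod.card, hm] at h1
    have h2 : m ≤ m * m := Nat.le_mul_self m
    rw [sq] at hn
    omega
  rcases Nat.even_or_odd m with he | ho
  · have hn2 : 2 ∣ n := by
      rcases hpar with ho | hn2
      · exact absurd he (Nat.not_even_iff_odd.mpr ho)
      · exact hn2.two_dvd
    have := even_case h (halves n) (by rw [hm]; exact Nat.even_iff.mp he) _ (half_count n hn2)
    rw [hL, hm] at this
    nlinarith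
  · have := odd_case h (halves n) (by rw [hm]; exact Nat.odd_iff.mp ho) (by omega)
    rwa [hL, hm] at this

end Pool.Agent.Results.MP_28ad2c_co.SingerGap
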