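import Pool.Agent.P.MP_28ad2c_co.Three

namespace Pool.Agent.Results.MP_28ad2c_co.ThreeGap

open Pool.Agent.P.MP_28ad2c_co Gap

/-- `A` is a Sidon set in the cyclic group of order `n`: two-term sums, repetitions allowed, are
distinct up to the order of the summands. -/
def IsSidon {n : ℕ} (A : Finset (ZMod n)) : Prop :=
  ∀ a ∈ A, ∀ b ∈ A, ∀ c ∈ A, ∀ d ∈ A, a + b = c + d → ({a, b} : Multiset (ZMod n)) = {c, d}

theorem result (m n : ℕ) (hn : n = m ^ 2 - m + 3) (h3 : m % 3 = 1)
    (A : Finset (ZMod n)) (hA : IsSidon A) (hm : A.card = m) : m ≤ 16 := by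
  have : NeZero n := ⟨by omega⟩
  have h : Sid A := by
    intro a ha b hb c hc d hd e
    have := hA a ha b hb c hc d hd e
    rw [Multiset.insert_eq_cons, Multiset.insert_eq_cons, Multiset.cons_eq_cons] at this
    rcases this with ⟨h1, h2⟩ | ⟨-, t, h1, h2⟩
    · exact Or.inl ⟨h1, Multiset.singleton_inj.mp h2⟩
    · have h3 := (Multiset.singleton_eq_cons_iff _).mp h1
      have h4 := (Multiset.singleton_eq_cons_iff _).mp h2
      exact Or.inr ⟨h4.1.symm, h3.1⟩
  have h2 : m ≤ m * m := Nat.le_mul_self m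
  rw [sq] at hn
  have hL : (LL A).card = 2 := by
    have h1 := card_LL h
    rw [ZMod.card, hm] at h1
    omega
  have ho : Odd n := by
    have h1 : (m * m) % 2 = m % 2 := by
      rcases Nat.mod_two_eq_zero_or_one m with e | e <;> simp [Nat.mul_mod, e]
    rw [Nat.odd_iff]
    omega
  obtain ⟨g, hg⟩ := Finset.card_pos.1 (show 0 < (LL A).card by omega)
  have hg' := mem_LL.1 hg
  have hne : g ≠ -g := fun e => hg'.1
    ((ZMod.add_self_eq_zero_iff_eq_zero ho).1 (add_eq_zero_iff_eq_neg.2 e))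
  have hneg : -g ∈ LL A := by
    refine mem_LL.2 ⟨neg_ne_zero.2 hg'.1, fun hD => hg'.2 ?_⟩
    obtain ⟨a, ha, b, hb, hab, e⟩ := mem_DD.1 hD
    exact mem_DD.2 ⟨b, hb, a, ha, hab.symm, by rw [← neg_sub, e, neg_neg]⟩
  have hLL : LL A = {g, -g} := (Finset.eq_of_subset_of_card_le
    (Finset.insert_subset hg (Finset.singleton_subset_iff.2 hneg))
    (by rw [hL, Finset.card_pair hne])).symm
  have := Three.bound h hLL hne (hm ▸ h3)
  omega

end Pool.Agent.Results.MP_28ad2c_co.ThreeGap
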